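import Pool.Agent.P.MP_95a67a_ag.Proof

namespace Pool.Agent.Results.MP_95a67a_ag.Counterexample

open MvPolynomial Pool.Agent.P.MP_95a67a_ag

theorem result :
    ∃ (Φ : CompleteSimplicialFan 2 4) (F : Fin (2 + 1) → MvPolynomial (Fin 4) ℂ)
      (α : Fin (2 + 1) → Φ.Cl),
      Φ.u = ![![1, 0], ![0, 1], ![-1, 1], ![0, -1]] ∧
      F = ![X 0 * X 1 ^ 2, X 0 * X 3 + X 2 ^ 2 * X 1, X 2 * X 3] ∧
      (∀ i, F i ≠ 0) ∧ (∀ i, F i ∈ Φ.piece (α i)) ∧ (∀ i, F i ∈ Φ.irrelevant) ∧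
      zeroLocus ℂ (Ideal.span (Set.range F)) ⊆ zeroLocus ℂ Φ.irrelevant ∧
      Module.finrank ℂ (Φ.piece (Φ.critical α) ⧸
        Φ.idealPiece (Ideal.span (Set.range F)) (Φ.critical α)) = 2 :=
  Pool.Agent.P.MP_95a67a_ag.main

end Pool.Agent.Results.MP_95a67a_ag.Counterexample
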