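import Pool.Agent.P.MP_95a67a_ag.Unb
import Pool.Agent.P.MP_95a67a_ag.Ex

namespace Pool.Agent.Results.MP_95a67a_ag.Unbounded

open MvPolynomial Pool.Agent.P.MP_95a67a_ag

/-- On every projective simplicial toric variety with an effective torus-invariant divisor that is
not nef, the codimension in the critical degree is unbounded. -/
theorem result {n r : ℕ} (Φ : CompleteSimplicialFan n r) (hproj : Φ.IsProjective)
    (a : Fin r → ℤ) (ha : ∀ ρ, 0 ≤ a ρ) (hnef : ¬Φ.IsNef a) (N : ℕ) :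
    ∃ (F : Fin (n + 1) → MvPolynomial (Fin r) ℂ) (α : Fin (n + 1) → Φ.Cl),
      (∀ i, F i ≠ 0) ∧ (∀ i, F i ∈ Φ.piece (α i)) ∧ (∀ i, F i ∈ Φ.irrelevant) ∧
      zeroLocus ℂ (Ideal.span (Set.range F)) ⊆ zeroLocus ℂ Φ.irrelevant ∧
      Module.Finite ℂ (Φ.piece (Φ.critical α)) ∧
      N ≤ Module.finrank ℂ (Φ.piece (Φ.critical α) ⧸
        Φ.idealPiece (Ideal.span (Set.range F)) (Φ.critical α)) :=
  Φ.unbounded hproj ha hnef N

end Pool.Agent.Results.MP_95a67a_ag.Unbounded
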